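import Pool.Agent.Q34.VWe

/-!
`∑_{k < p^r} (2 k / α + 1) ((α)_k / k!)^(2 N) ≡ 0 (mod p^(2 r + 5))`, `α = (p^r - 1) / (p^(r + 1) - 1)`,
`N = 1 + p + ⋯ + p^r`, for every prime `p > 3` and every `r ≥ 1`.
-/

set_option autoImplicit false

namespace Pool.Agent.Results.MP_3ec1f3_nt.Full

open Finset

/-- the rising factorial `(a)_k = a (a + 1) ⋯ (a + k - 1)` -/
def rf (a : ℚ) (k : ℕ) : ℚ := ∏ i ∈ range k, (a + i)

/-- `x ≡ 0 (mod p^m)`: `x = p^m u / w` with integers `u`, `w` and `p ∤ w` -/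
def Zero (p m : ℕ) (x : ℚ) : Prop := ∃ u w : ℤ, ¬ (p : ℤ) ∣ w ∧ x = (p : ℚ) ^ m * (u / w)

/-- `α_r = (p^r - 1) / (p^(r + 1) - 1)` -/
def al (p r : ℕ) : ℚ := ((p : ℚ) ^ r - 1) / ((p : ℚ) ^ (r + 1) - 1)

/-- `N_r = 1 + p + ⋯ + p^r` -/
def NN (p r : ℕ) : ℕ := ∑ i ∈ range (r + 1), p ^ i

/-- the sum of the problem -/
def S (p r : ℕ) : ℚ :=
  ∑ k ∈ range (p ^ r), (2 * (k : ℚ) / al p r + 1) * (rf (al p r) k / (k.factorial : ℚ)) ^ (2 * NN p r)

open Pool.Agent.Q34.VW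

theorem ratio {d : ℚ} (k : ℕ) : rf (1 - 2 * d) k / (k.factorial : ℚ) =
    ∏ j ∈ range k, (((j : ℚ) + 1 - 2 * d) / ((j : ℚ) + 1)) := by
  unfold rf
  rw [← prod_range_add_one_eq_factorial]
  push_cast
  rw [← prod_div_distrib]
  exact prod_congr rfl fun j _ => by congr 1; ring

theorem NN_split (p r : ℕ) : NN p (r + 1) = 1 + p * NN p r := by
  unfold NN
  rw [sum_range_succ' _ (r + 1), mul_sum, add_comm]
  congr 1
  exact sum_congr rfl fun i _ => by ring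

theorem NN_mul (p r : ℕ) : (NN p r : ℚ) * ((p : ℚ) - 1) = (p : ℚ) ^ (r + 1) - 1 := by
  unfold NN
  push_cast
  rw [geom_sum_mul]

theorem main {p r : ℕ} (hp : p.Prime) (h3 : 3 < p) (hr : 1 ≤ r) : Zero p (2 * r + 5) (S p r) := by
  haveI : Fact p.Prime := ⟨hp⟩
  obtain ⟨s, rfl⟩ : ∃ s, r = s + 1 := ⟨r - 1, by omega⟩
  have hpp : p ^ 1 ≤ p ^ (s + 1) := Nat.pow_le_pow_right hp.pos (by omega)
  rw [pow_one] at hpp
  obtain ⟨M, hM⟩ : ∃ M, M = NN p (s + 1) := ⟨_, rfl⟩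
  have hM' : M = 1 + p * NN p s := by rw [hM, NN_split]
  have hNs : 1 ≤ NN p s := by
    unfold NN
    rw [sum_range_succ']
    simp
  obtain ⟨n, hn⟩ : ∃ n, n + 1 = p ^ (s + 1) := ⟨p ^ (s + 1) - 1, by omega⟩
  have C : Ctx p s M n 1 :=
    { h3 := h3
      hn := hn
      hM := by
        rw [hM']
        intro h
        have h2 := (Nat.dvd_add_left (dvd_mul_right p (NN p s))).1 h
        exact hp.one_lt.ne' (Nat.dvd_one.1 h2)
      hM2 := by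
        have : 1 * 1 ≤ p * NN p s := Nat.mul_le_mul hp.one_lt.le hNs
        omega
      hv := le_rfl
      hv1 := by
        have : ((M : ℚ) - 1) = (p : ℚ) * (NN p s : ℕ) := by rw [hM']; push_cast; ring
        rw [this, padicNorm.mul, padicNorm.padicNorm_p_of_prime, pow_one]
        exact mul_le_of_le_one_right t_pos.le (padicNorm.of_nat _) }
  have hM0 := C.M0
  have hp1 : (p : ℚ) - 1 ≠ 0 := by
    have : (1 : ℚ) < p := by exact_mod_cast hp.one_lt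
    intro h
    linarith
  have hMp : (M : ℚ) * ((p : ℚ) - 1) = (p : ℚ) ^ (s + 2) - 1 := by rw [hM]; exact NN_mul p (s + 1)
  have hden : (p : ℚ) ^ (s + 2) - 1 ≠ 0 := by rw [← hMp]; exact mul_ne_zero hM0 hp1
  have hd : 1 - 2 * dd p s M = al p (s + 1) := by
    unfold dd al
    rw [show s + 1 + 1 = s + 2 by ring, eq_div_iff hden, ← hMp]
    have e1 : (1 - 2 * ((p : ℚ) ^ (s + 1) / (2 * (M : ℚ)))) * ((M : ℚ) * ((p : ℚ) - 1)) =
        (M : ℚ) * ((p : ℚ) - 1) - (p : ℚ) ^ (s + 1) * ((p : ℚ) - 1) := by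
      field_simp
    rw [e1, hMp]
    ring
  have hal0 : al p (s + 1) ≠ 0 := by
    rw [← hd]
    have := C.hF 0
    simpa using this
  have h := exists_of_N C.final
  have e : S p (s + 1) = (al p (s + 1))⁻¹ * ∑ k ∈ range (n + 1), (1 - 2 * dd p s M + 2 * k) *
      (∏ j ∈ range k, (((j : ℚ) + 1 - 2 * dd p s M) / ((j : ℚ) + 1))) ^ (2 * M) := by
    unfold S
    rw [← hM, ← hn, mul_sum]
    refine sum_congr rfl fun k _ => ?_
    rw [← hd, ratio, ← mul_assoc]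
    congr 1
    rw [hd]
    field_simp
    ring
  -- the inverse of `α` is a fraction with numerator prime to `p`
  have hinv : (al p (s + 1))⁻¹ = (((p : ℤ) ^ (s + 2) - 1 : ℤ) : ℚ) / (((p : ℤ) ^ (s + 1) - 1 : ℤ) : ℚ) := by
    unfold al
    rw [inv_div]
    push_cast
    rfl
  have hnd : ¬ (p : ℤ) ∣ ((p : ℤ) ^ (s + 1) - 1) := by
    intro h0
    have h1 : (p : ℤ) ∣ (p : ℤ) ^ (s + 1) := dvd_pow_self _ (by omega)
    have h2 := dvd_sub h1 h0
    rw [sub_sub_cancel] at h2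
    have : p ∣ 1 := by exact_mod_cast h2
    exact hp.one_lt.ne' (Nat.dvd_one.1 this)
  obtain ⟨u, w, hw, hx⟩ := h
  refine ⟨((p : ℤ) ^ (s + 2) - 1) * u, ((p : ℤ) ^ (s + 1) - 1) * w, ?_, ?_⟩
  · intro h0
    rcases (Nat.prime_iff_prime_int.1 hp).dvd_or_dvd h0 with h1 | h1
    · exact hnd h1
    · exact hw h1
  · rw [e, hx, hinv]
    have : 2 * (s + 1) + 3 + 2 * 1 = 2 * (s + 1) + 5 := by ring
    rw [this, Int.cast_mul, Int.cast_mul, mul_left_comm, _root_.div_mul_div_comm]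

/-- **Q1 and Q2, the answer is yes.** For every prime `p > 3`, `S_1(p) ≡ 0 (mod p^7)`; and for every `r ≥ 1`,
`S_r(p) ≡ 0 (mod p^(2 r + 5))`. -/
theorem result : (∀ p : ℕ, p.Prime → 3 < p → Zero p 7 (S p 1)) ∧
    ∀ p r : ℕ, p.Prime → 3 < p → 1 ≤ r → Zero p (2 * r + 5) (S p r) :=
  ⟨fun _ hp h3 => main (r := 1) hp h3 le_rfl, fun _ _ hp h3 hr => main hp h3 hr⟩

end Pool.Agent.Results.MP_3ec1f3_nt.Full
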